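import Pool.Agent.Lib.MP_6fca61_gt_PC.MainIII
import Pool.Agent.Lib.MP_6fca61_gt_PC.Stt
import Pool.Agent.Lib.MP_6fca61_gt_W.Fin

set_option autoImplicit false
set_option maxSynthPendingDepth 3

/-!
# MP_6fca61_gt: a submersion of a positively curved manifold whose fibres have larger dimension
# than its base
-/

namespace Pool.Agent.Results.MP_6fca61_gt.PetersenWilhelmFalse

open Pool.Agent.Lib.MP_6fca61_gt Pool.Agent.MP6fca61.PC

/-- The compact connected manifold `MM = S² × S³` (of dimension 5) carries a Riemannian metric `g`
all of whose sectional curvatures are at least `κ > 0`, such that the projection to `S²` (of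
dimension 2) is a Riemannian submersion for a metric `h` of `S²`. Its fibres `{x} × S³` have
dimension 3. The group `S³` of the unit quaternions acts on `MM` from the right by isometries
`(x, q) ↦ (x, q r)`, and the fibres are the orbits of this free action. -/
theorem result :
    CompactSpace MM ∧ ConnectedSpace MM ∧ Module.finrank ℝ (E2 × E3) = 5 ∧
      Module.finrank ℝ E2 = 2 ∧ PosSubm (E2 × E3) E2 (Prod.fst : MM → S2) rightMul := by
  obtain ⟨D, hD⟩ := Pool.Agent.Lib.MP_6fca61_gt_W.exists_dat
  refine ⟨mm_compact, mm_connected, ?_, by simp, main_of_sig D hD⟩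
  simp [Module.finrank_prod]

end Pool.Agent.Results.MP_6fca61_gt.PetersenWilhelmFalse
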