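import Pool.Agent.Lib.MP_6fca61_gt.MainP
import Pool.Agent.Lib.MP_6fca61_gt.StEq

set_option autoImplicit false

/-!
# MP_6fca61_gt: Riemannian submersions of pinched positively curved manifolds
-/

namespace Pool.Agent.Results.MP_6fca61_gt.PinchedSubmersions

open Pool.Agent.Lib.MP_6fca61_gt
open scoped Manifold ContDiff

/-- Let `π : M → B` be a Riemannian submersion, `M` compact of dimension `n`, `dim B = b`,
`0 < b < n`, whose fibres have no nowhere vanishing continuous tangent vector field. If all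
sectional curvatures of `M` are at least `κ > 0` and those of the horizontal planes are at most
`Λ`, then `n - b ≤ (m - 2) (b - 1)` for every integer `m ≥ 2` with `Λ < m ^ 2 κ`; in particular
the fibres have smaller dimension than the base if `Λ < 9 κ`. -/
theorem result {E E' M B : Type} [NormedAddCommGroup E] [NormedSpace ℝ E]
    [FiniteDimensional ℝ E] [NormedAddCommGroup E'] [NormedSpace ℝ E'] [FiniteDimensional ℝ E']
    [TopologicalSpace M] [CompactSpace M] [Nonempty M] [ChartedSpace E M]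
    [IsManifold 𝓘(ℝ, E) ∞ M] [TopologicalSpace B] [ChartedSpace E' B]
    [IsManifold 𝓘(ℝ, E') ∞ B] {n b : ℕ} (hn : Module.finrank ℝ E = n)
    (hb : Module.finrank ℝ E' = b) (h0 : 0 < b) (hbn : b < n) (g : RMet E M) (h : RMet E' B)
    (π : M → B) (hπ : IsRiemSubm g.fam h.fam π) (hF : ∀ y, NoField E E' π y) (κ Λ : ℝ)
    (hκ : 0 < κ) (hsec : SecMin g.fam κ) (hhor : HorSecMax E' g.fam π Λ) :
    (∀ m : ℕ, 2 ≤ m → Λ < (m : ℝ) ^ 2 * κ → n - b ≤ (m - 2) * (b - 1)) ∧
      (Λ < 9 * κ → n - b < b) := by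
  subst hn hb
  have key : ∀ m : ℕ, 2 ≤ m → Λ < (m : ℝ) ^ 2 * κ →
      Module.finrank ℝ E - Module.finrank ℝ E' ≤ (m - 2) * (Module.finrank ℝ E' - 1) :=
    fun m hm hΛ => mainP g h π hπ hF hκ (secGe (gf g) hsec) (horSecLe (gf g) hhor) hm hΛ h0
  refine ⟨key, fun hΛ => ?_⟩
  have h1 := key 3 (by norm_num) (by norm_num; exact hΛ)
  omega

end Pool.Agent.Results.MP_6fca61_gt.PinchedSubmersions
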