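import Pool.Agent.Lib.MP_6fca61_gt.MainR
import Pool.Agent.Lib.MP_6fca61_gt.StEq

set_option autoImplicit false

/-!
# MP_6fca61_gt: Riemannian submersions and the Ricci curvature of the base
-/

namespace Pool.Agent.Results.MP_6fca61_gt.RicciBase

open Pool.Agent.Lib.MP_6fca61_gt
open scoped Manifold ContDiff

/-- Let `π : M → B` be a Riemannian submersion, `M` compact of dimension `n`, `dim B = b`,
`0 < b ≤ n`, all sectional curvatures of `M` at least `κ`. If the Ricci curvatures of `B` in the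
directions of the unit vectors are at most `r`, then `κ (b - 1 + 3 (n - b)) ≤ r`; in particular
the fibres have smaller dimension than the base if `κ > 0` and `r < κ (4 b - 1)`. -/
theorem result {E E' M B : Type} [NormedAddCommGroup E] [NormedSpace ℝ E]
    [FiniteDimensional ℝ E] [NormedAddCommGroup E'] [NormedSpace ℝ E'] [FiniteDimensional ℝ E']
    [TopologicalSpace M] [CompactSpace M] [Nonempty M] [ChartedSpace E M]
    [IsManifold 𝓘(ℝ, E) ∞ M] [TopologicalSpace B] [ChartedSpace E' B]
    [IsManifold 𝓘(ℝ, E') ∞ B] {n b : ℕ} (hn : Module.finrank ℝ E = n)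
    (hb : Module.finrank ℝ E' = b) (h0 : 0 < b) (hbn : b ≤ n) (g : RMet E M) (h : RMet E' B)
    (π : M → B) (hπ : IsRiemSubm g.fam h.fam π) (κ r : ℝ) (hsec : SecMin g.fam κ)
    (hr : RicMax h.fam r) :
    κ * (b - 1 + 3 * (n - b)) ≤ r ∧ (0 < κ → r < κ * (4 * b - 1) → n - b < b) := by
  have key : κ * (b - 1 + 3 * (n - b)) ≤ r := by
    have h1 := mainR g h π hπ (secGe (gf g) hsec) (ricLe (gf h) hr) (f := n - b)
      (by rw [hn, hb]; omega) (by rw [hb]; exact h0)
    rw [Nat.cast_sub hbn, hb] at h1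
    exact h1
  refine ⟨key, fun hκ hr' => ?_⟩
  by_contra hc
  have h2 : 2 * b ≤ n := by omega
  have h3 : (2 * b : ℝ) ≤ n := by exact_mod_cast h2
  have h4 : κ * (4 * b - 1) ≤ κ * (b - 1 + 3 * (n - b)) :=
    mul_le_mul_of_nonneg_left (by linarith) hκ.le
  linarith

end Pool.Agent.Results.MP_6fca61_gt.RicciBase
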